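import Mathlib

/-!
# Induced bipartite subgraphs, average eccentricity and neighbourhood independence
-/

namespace Pool.Agent.Results.MP_b44c21_co.BipEcc

open SimpleGraph Finset

/-- The maximum number of vertices of an induced subgraph that is bipartite. -/
noncomputable def bipNum {V : Type} (G : SimpleGraph V) : ℕ :=
  sSup {k | ∃ S : Finset V, S.card = k ∧ (G.induce (S : Set V)).Colorable 2}

/-- The local independence number `l(v)`: the independence number of the subgraph induced on the
neighbours of `v`. -/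
noncomputable def localIndep {V : Type} (G : SimpleGraph V) (v : V) : ℕ :=
  (G.induce (G.neighborSet v)).indepNum

/-- `L(G)`, the maximum of `l(v)`. -/
noncomputable def maxLocalIndep {V : Type} [Fintype V] (G : SimpleGraph V) : ℕ :=
  univ.sup (fun v => localIndep G v)

/-- The eccentricity of a vertex. -/
noncomputable def ecc {V : Type} [Fintype V] (G : SimpleGraph V) (v : V) : ℕ :=
  univ.sup (fun u => G.dist v u)

/-- The average eccentricity. -/
noncomputable def avgEcc {V : Type} [Fintype V] (G : SimpleGraph V) : ℚ :=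
  (∑ v : V, (ecc G v : ℚ)) / Fintype.card V

section

variable {V : Type} {G : SimpleGraph V}

/-- Vertices along a geodesic. -/
theorem geodesic (hG : G.Connected) (v a : V) : ∃ p : ℕ → V, ∀ i ≤ G.dist v a,
    G.dist v (p i) = i ∧ G.dist (p i) a = G.dist v a - i := by
  obtain ⟨w, hw⟩ := hG.exists_walk_length_eq_dist v a
  refine ⟨w.getVert, fun i hi => ?_⟩
  have h1 : G.dist v (w.getVert i) ≤ i := by
    have := dist_le (w.take i)
    simp at this
    omega
  have h2 : G.dist (w.getVert i) a ≤ G.dist v a - i := by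
    have := dist_le (w.drop i)
    simp at this
    omega
  have h3 := hG.dist_triangle (u := v) (v := w.getVert i) (w := a)
  omega

theorem dist_adj (hG : G.Connected) (v : V) {x y : V} (h : G.Adj x y) :
    G.dist v x ≤ G.dist v y + 1 := by
  have h1 := hG.dist_triangle (u := v) (v := y) (w := x)
  have h2 : G.dist y x = 1 := dist_eq_one_iff_adj.2 h.symm
  omega

theorem exists_indep [Fintype V] [DecidableEq V] (v : V) : ∃ I : Finset V,
    I.card = localIndep G v ∧ (∀ x ∈ I, G.Adj v x) ∧ (∀ x ∈ I, ∀ y ∈ I, ¬ G.Adj x y) := by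
  obtain ⟨s, hs⟩ := (G.induce (G.neighborSet v)).exists_isNIndepSet_indepNum
  refine ⟨s.map (Function.Embedding.subtype _), ?_, ?_, ?_⟩
  · rw [card_map]; exact hs.card_eq
  · intro x hx
    simp only [mem_map, Function.Embedding.subtype_apply] at hx
    obtain ⟨y, _, rfl⟩ := hx
    exact y.2
  · intro x hx y hy
    simp only [mem_map, Function.Embedding.subtype_apply] at hx hy
    obtain ⟨x, hx, rfl⟩ := hx
    obtain ⟨y, hy, rfl⟩ := hy
    intro hxy
    by_cases h : x = y
    · subst h; exact hxy.ne rfl
    · exact hs.isIndepSet hx hy h hxy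

theorem le_bipNum [Fintype V] (hG : G.Connected) (v : V) (S : Finset V)
    (hS : ∀ x ∈ S, ∀ y ∈ S, G.Adj x y → G.dist v x ≠ G.dist v y) : S.card ≤ bipNum G := by
  refine le_csSup ⟨Fintype.card V, ?_⟩ ⟨S, rfl, ?_⟩
  · rintro k ⟨T, rfl, _⟩
    exact card_le_univ T
  · refine ⟨SimpleGraph.Coloring.mk (fun x => (⟨G.dist v x.1 % 2, Nat.mod_lt _ (by norm_num)⟩ : Fin 2))
      (fun {x y} hxy => ?_)⟩
    have hxy' : G.Adj x.1 y.1 := hxy
    intro heq
    have h1 := dist_adj hG v hxy'
    have h2 := dist_adj hG v hxy'.symm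
    have h3 := hS x.1 x.2 y.1 y.2 hxy'
    simp only [Fin.mk.injEq] at heq
    omega

/-- The key construction: an independent set in the neighbourhood of `v` together with the final
parts of two geodesics. -/
theorem key [Fintype V] [DecidableEq V] (hG : G.Connected) (v a b : V)
    (ha : G.dist v a < G.dist a b) (hb : G.dist v b < G.dist a b) :
    localIndep G v + G.dist a b ≤ bipNum G + 1 := by
  obtain ⟨I, hIc, hIv, hI⟩ := exists_indep (G := G) v
  obtain ⟨p, hp⟩ := geodesic hG v a
  obtain ⟨q, hq⟩ := geodesic hG v b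
  set s := G.dist v a with hs
  set t := G.dist v b with ht
  set D := G.dist a b with hD
  have htri : D ≤ s + t := by
    have := hG.dist_triangle (u := a) (v := v) (w := b)
    rw [SimpleGraph.dist_comm (u := a) (v := v)] at this
    exact this
  set x := s + t - D with hx
  -- the crucial non-adjacency
  have hcross : ∀ i, x + 2 ≤ i → i ≤ s → ∀ j ≤ t, p i ≠ q j ∧ ¬ G.Adj (p i) (q j) := by
    intro i hi his j hj
    have h1 := (hp i his).2
    have h2 := (hq j hj).2
    have h3 := hG.dist_triangle (u := a) (v := p i) (w := b)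
    have h4 := hG.dist_triangle (u := p i) (v := q j) (w := b)
    rw [SimpleGraph.dist_comm (u := a) (v := p i)] at h3
    have h5 : 2 ≤ G.dist (p i) (q j) := by
      have h6 := (hp i his).1
      have h7 := (hq j hj).1
      by_contra hlt
      -- i and j are within distance one
      have h8 := hG.dist_triangle (u := v) (v := p i) (w := q j)
      have h9 := hG.dist_triangle (u := v) (v := q j) (w := p i)
      rw [SimpleGraph.dist_comm (u := q j) (v := p i)] at h9
      omega
    refine ⟨?_, ?_⟩
    · intro h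
      rw [h, SimpleGraph.dist_self] at h5
      omega
    · intro h
      rw [dist_eq_one_iff_adj.2 h] at h5
      omega
  set P := (Finset.Icc (x + 2) s).image p with hP
  set Q := (Finset.Icc 2 t).image q with hQ
  have hPc : P.card = s - (x + 1) := by
    rw [hP, card_image_of_injOn, Nat.card_Icc]
    · omega
    · intro i hi j hj hij
      have h1 := (hp i (by simpa using (mem_Icc.1 hi).2)).1
      have h2 := (hp j (by simpa using (mem_Icc.1 hj).2)).1
      rw [← h1, ← h2, hij]
  have hQc : Q.card = t - 1 := by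
    rw [hQ, card_image_of_injOn, Nat.card_Icc]
    · omega
    · intro i hi j hj hij
      have h1 := (hq i (by simpa using (mem_Icc.1 hi).2)).1
      have h2 := (hq j (by simpa using (mem_Icc.1 hj).2)).1
      rw [← h1, ← h2, hij]
  have hPm : ∀ y ∈ P, ∃ i, x + 2 ≤ i ∧ i ≤ s ∧ y = p i ∧ G.dist v y = i := by
    intro y hy
    obtain ⟨i, hi, rfl⟩ := mem_image.1 hy
    rw [mem_Icc] at hi
    exact ⟨i, hi.1, hi.2, rfl, (hp i hi.2).1⟩
  have hQm : ∀ y ∈ Q, ∃ i, 2 ≤ i ∧ i ≤ t ∧ y = q i ∧ G.dist v y = i := by
    intro y hy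
    obtain ⟨i, hi, rfl⟩ := mem_image.1 hy
    rw [mem_Icc] at hi
    exact ⟨i, hi.1, hi.2, rfl, (hq i hi.2).1⟩
  have hId : ∀ y ∈ I, G.dist v y = 1 := fun y hy => dist_eq_one_iff_adj.2 (hIv y hy)
  have hvI : v ∉ I := fun h => (hIv v h).ne rfl
  have hd1 : Disjoint (insert v I) Q := by
    rw [Finset.disjoint_left]
    intro y hy hy2
    obtain ⟨i, hi, _, _, hi2⟩ := hQm y hy2
    rcases mem_insert.1 hy with rfl | hy
    · rw [SimpleGraph.dist_self] at hi2; omega
    · rw [hId y hy] at hi2; omega
  have hd2 : Disjoint (insert v I ∪ Q) P := by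
    rw [Finset.disjoint_left]
    intro y hy hy2
    obtain ⟨i, hi, his, hyp, hi2⟩ := hPm y hy2
    rcases mem_union.1 hy with hy | hy
    · rcases mem_insert.1 hy with rfl | hy
      · rw [SimpleGraph.dist_self] at hi2; omega
      · rw [hId y hy] at hi2; omega
    · obtain ⟨j, hj, hjt, hyq, _⟩ := hQm y hy
      exact (hcross i hi his j hjt).1 (by rw [← hyp, ← hyq])
  have hcard : (insert v I ∪ Q ∪ P).card = 1 + localIndep G v + (t - 1) + (s - (x + 1)) := by
    rw [card_union_of_disjoint hd2, card_union_of_disjoint hd1, card_insert_of_notMem hvI,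
      hIc, hPc, hQc]
    omega
  have hbip : (insert v I ∪ Q ∪ P).card ≤ bipNum G := by
    refine le_bipNum hG v _ ?_
    intro y hy z hz hyz heq
    have hne : y ≠ z := hyz.ne
    simp only [mem_union, mem_insert] at hy hz
    rcases hy with ((rfl | hy) | hy) | hy
    · -- y = v
      rw [SimpleGraph.dist_self] at heq
      exact hne (hG.dist_eq_zero_iff.1 heq.symm)
    · have hy1 := hId y hy
      rcases hz with ((rfl | hz) | hz) | hz
      · rw [SimpleGraph.dist_self] at heq; omega
      · exact hI y hy z hz hyz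
      · obtain ⟨j, hj, _, _, hj2⟩ := hQm z hz; omega
      · obtain ⟨j, hj, _, _, hj2⟩ := hPm z hz; omega
    · obtain ⟨i, hi, hit, hyq, hi2⟩ := hQm y hy
      rcases hz with ((rfl | hz) | hz) | hz
      · rw [SimpleGraph.dist_self] at heq; omega
      · have := hId z hz; omega
      · obtain ⟨j, hj, hjt, hzq, hj2⟩ := hQm z hz
        apply hne
        rw [hyq, hzq]
        congr 1
        omega
      · obtain ⟨j, hj, hjs, hzp, hj2⟩ := hPm z hz
        exact (hcross j hj hjs i hit).2 (by rw [← hzp, ← hyq]; exact hyz.symm)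
    · obtain ⟨i, hi, his, hyp, hi2⟩ := hPm y hy
      rcases hz with ((rfl | hz) | hz) | hz
      · rw [SimpleGraph.dist_self] at heq; omega
      · have := hId z hz; omega
      · obtain ⟨j, hj, hjt, hzq, hj2⟩ := hQm z hz
        exact (hcross i hi his j hjt).2 (by rw [← hyp, ← hzq]; exact hyz)
      · obtain ⟨j, hj, hjs, hzp, hj2⟩ := hPm z hz
        apply hne
        rw [hyp, hzp]
        congr 1
        omega
  rw [hcard] at hbip
  omega

theorem key2 [Fintype V] [DecidableEq V] (hG : G.Connected) (v a : V) :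
    localIndep G v + G.dist v a ≤ bipNum G := by
  obtain ⟨I, hIc, hIv, hI⟩ := exists_indep (G := G) v
  obtain ⟨q, hq⟩ := geodesic hG v a
  set t := G.dist v a with ht
  set Q := (Finset.Icc 2 t).image q with hQ
  have hQc : Q.card = t - 1 := by
    rw [hQ, card_image_of_injOn, Nat.card_Icc]
    · omega
    · intro i hi j hj hij
      have h1 := (hq i (by simpa using (mem_Icc.1 hi).2)).1
      have h2 := (hq j (by simpa using (mem_Icc.1 hj).2)).1
      rw [← h1, ← h2, hij]
  have hQm : ∀ y ∈ Q, ∃ i, 2 ≤ i ∧ i ≤ t ∧ y = q i ∧ G.dist v y = i := by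
    intro y hy
    obtain ⟨i, hi, rfl⟩ := mem_image.1 hy
    rw [mem_Icc] at hi
    exact ⟨i, hi.1, hi.2, rfl, (hq i hi.2).1⟩
  have hId : ∀ y ∈ I, G.dist v y = 1 := fun y hy => dist_eq_one_iff_adj.2 (hIv y hy)
  have hvI : v ∉ I := fun h => (hIv v h).ne rfl
  have hd1 : Disjoint (insert v I) Q := by
    rw [Finset.disjoint_left]
    intro y hy hy2
    obtain ⟨i, hi, _, _, hi2⟩ := hQm y hy2
    rcases mem_insert.1 hy with rfl | hy
    · rw [SimpleGraph.dist_self] at hi2; omega
    · rw [hId y hy] at hi2; omega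
  have hcard : (insert v I ∪ Q).card = 1 + localIndep G v + (t - 1) := by
    rw [card_union_of_disjoint hd1, card_insert_of_notMem hvI, hIc, hQc]
    omega
  have hbip : (insert v I ∪ Q).card ≤ bipNum G := by
    refine le_bipNum hG v _ ?_
    intro y hy z hz hyz heq
    have hne : y ≠ z := hyz.ne
    simp only [mem_union, mem_insert] at hy hz
    rcases hy with (rfl | hy) | hy
    · rw [SimpleGraph.dist_self] at heq
      exact hne (hG.dist_eq_zero_iff.1 heq.symm)
    · have hy1 := hId y hy
      rcases hz with (rfl | hz) | hz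
      · rw [SimpleGraph.dist_self] at heq; omega
      · exact hI y hy z hz hyz
      · obtain ⟨j, hj, _, _, hj2⟩ := hQm z hz; omega
    · obtain ⟨i, hi, hit, hyq, hi2⟩ := hQm y hy
      rcases hz with (rfl | hz) | hz
      · rw [SimpleGraph.dist_self] at heq; omega
      · have := hId z hz; omega
      · obtain ⟨j, hj, hjt, hzq, hj2⟩ := hQm z hz
        apply hne
        rw [hyq, hzq]
        congr 1
        omega
  rw [hcard] at hbip
  omega

end

/-- **Bipartite number, average eccentricity and neighbourhood independence.** -/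
theorem result {V : Type} [Fintype V] (G : SimpleGraph V) (hG : G.Connected) :
    ⌊avgEcc G + (maxLocalIndep G : ℚ)⌋ ≤ (bipNum G : ℤ) := by
  classical
  have hne : Nonempty V := hG.nonempty
  obtain ⟨v, _, hv⟩ := exists_mem_eq_sup (univ : Finset V) univ_nonempty (fun v => localIndep G v)
  obtain ⟨a, _, ha⟩ := exists_mem_eq_sup (univ : Finset V) univ_nonempty (fun v => ecc G v)
  obtain ⟨b, _, hb⟩ := exists_mem_eq_sup (univ : Finset V) univ_nonempty (fun u => G.dist a u)
  have hv' : maxLocalIndep G = localIndep G v := hv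
  have hD : ∀ u, ecc G u ≤ G.dist a b := by
    intro u
    have h1 : ecc G u ≤ univ.sup (fun v => ecc G v) := le_sup (f := fun v => ecc G v) (mem_univ u)
    rw [ha] at h1
    exact h1.trans hb.le
  have hecc : ∀ u w, G.dist u w ≤ ecc G u :=
    fun u w => le_sup (f := fun w => G.dist u w) (mem_univ w)
  have hn : (0 : ℚ) < Fintype.card V := by exact_mod_cast Fintype.card_pos
  rw [hv']
  by_cases hvD : ecc G v = G.dist a b
  · -- full eccentricity
    obtain ⟨c, _, hc⟩ := exists_mem_eq_sup (univ : Finset V) univ_nonempty (fun u => G.dist v u)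
    have hc' : ecc G v = G.dist v c := hc
    have h1 := key2 hG v c
    rw [← hc', hvD] at h1
    have h2 : avgEcc G ≤ (G.dist a b : ℚ) := by
      rw [avgEcc, div_le_iff₀ hn]
      calc ∑ u : V, (ecc G u : ℚ) ≤ ∑ u : V, (G.dist a b : ℚ) :=
            sum_le_sum (fun u _ => by exact_mod_cast hD u)
        _ = _ := by simp [mul_comm]
    have h3 : avgEcc G + (localIndep G v : ℚ) ≤ ((bipNum G : ℤ) : ℚ) := by
      have h4 : (localIndep G v : ℚ) + (G.dist a b : ℚ) ≤ (bipNum G : ℚ) := by exact_mod_cast h1
      push_cast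
      linarith
    exact Int.floor_le_iff.2 (by linarith)
  · have hlt : ecc G v < G.dist a b := lt_of_le_of_ne (hD v) hvD
    have h1 := key hG v a b (lt_of_le_of_lt (hecc v a) hlt) (lt_of_le_of_lt (hecc v b) hlt)
    have h2 : avgEcc G < (G.dist a b : ℚ) := by
      rw [avgEcc, div_lt_iff₀ hn]
      calc ∑ u : V, (ecc G u : ℚ) < ∑ u : V, (G.dist a b : ℚ) :=
            sum_lt_sum (fun u _ => by exact_mod_cast hD u) ⟨v, mem_univ v, by exact_mod_cast hlt⟩
        _ = _ := by simp [mul_comm]
    have h4 : (localIndep G v : ℚ) + (G.dist a b : ℚ) ≤ (bipNum G : ℚ) + 1 := by exact_mod_cast h1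
    rw [Int.floor_le_iff]
    push_cast
    linarith

end Pool.Agent.Results.MP_b44c21_co.BipEcc
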